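import Pool.Agent.Y860.LC.Key

set_option autoImplicit false
set_option linter.unusedSectionVars false
set_option linter.unusedVariables false
open Matrix

namespace Pool.Agent.Y860.LC
open Pool.Agent.Results.MP_46ffdd_an.LeeConcaveFrobenius

open scoped ComplexOrder in
/-- The absolute value of `X` is `P` if `P` is positive semidefinite and `P² = X*X`. -/
lemma absM_eq {n : ℕ} (X P : Matrix (Fin n) (Fin n) ℂ) (hP : P.PosSemidef) (h : P * P = Xᴴ * X) :
    absM X = P := by
  unfold absM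
  rw [← h]
  have hPH : P.IsHermitian := hP.1
  have hcont : ∀ (M : Matrix (Fin n) (Fin n) ℂ) (g : ℝ → ℝ), ContinuousOn g (spectrum ℝ M) :=
    fun M g => (Matrix.finite_real_spectrum (A := M)).continuousOn g
  have hid : cfc (fun x : ℝ => x) P = P := by
    apply cfc_id'
    exact hPH
  have e1 : P * P = cfc (fun x : ℝ => x * x) P := by
    rw [cfc_mul (fun x : ℝ => x) (fun x : ℝ => x) P (hcont P _) (hcont P _), hid]
  have e2 : cfc Real.sqrt (cfc (fun x : ℝ => x * x) P) = cfc (Real.sqrt ∘ fun x : ℝ => x * x) P := by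
    refine (cfc_comp Real.sqrt (fun x : ℝ => x * x) P hPH ?_ (hcont P _)).symm
    exact ((Matrix.finite_real_spectrum (A := P)).image _).continuousOn _
  rw [e1, e2]
  have e3 : cfc (Real.sqrt ∘ fun x : ℝ => x * x) P = cfc (fun x : ℝ => x) P := by
    refine cfc_congr ?_
    intro x hx
    have hx0 : 0 ≤ x := by
      rw [hPH.spectrum_real_eq_range_eigenvalues] at hx
      obtain ⟨i, rfl⟩ := hx
      exact hP.eigenvalues_nonneg i
    simp only [Function.comp]
    exact Real.sqrt_mul_self hx0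
  rw [e3, hid]

/-- `b` with `m b² + 2 b = 1/√m` -/
noncomputable def bb (m : ℕ) : ℝ := (Real.sqrt (1 + Real.sqrt m) - 1) / m

lemma bb_spec (m : ℕ) (hm : 1 ≤ m) : m * bb m ^ 2 + 2 * bb m = 1 / Real.sqrt m := by
  have hm0 : (0 : ℝ) < m := by exact_mod_cast hm
  have hq : 0 < Real.sqrt m := Real.sqrt_pos.mpr hm0
  have hqq : Real.sqrt m * Real.sqrt m = m := Real.mul_self_sqrt hm0.le
  have hr : Real.sqrt (1 + Real.sqrt m) * Real.sqrt (1 + Real.sqrt m) = 1 + Real.sqrt m :=
    Real.mul_self_sqrt (by positivity)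
  have h1 : m * bb m = Real.sqrt (1 + Real.sqrt m) - 1 := by
    unfold bb
    rw [mul_div_cancel₀ _ hm0.ne']
  have h2 : m * (m * bb m ^ 2 + 2 * bb m) = Real.sqrt m := by
    have : m * (m * bb m ^ 2 + 2 * bb m) = (m * bb m) * (m * bb m) + 2 * (m * bb m) := by ring
    rw [this, h1]
    nlinarith
  have h3 : m * (1 / Real.sqrt m) = Real.sqrt m := by
    rw [mul_one_div, div_eq_iff hq.ne']
    exact hqq.symm
  have h4 : (m : ℝ) * (m * bb m ^ 2 + 2 * bb m) = m * (1 / Real.sqrt m) := by rw [h2, h3]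
  exact mul_left_cancel₀ hm0.ne' h4

/-- the vectors -/
noncomputable def vv (m : ℕ) (k j : Fin m) : ℝ := (if j = k then 1 else 0) + bb m

lemma vv_sum (m : ℕ) (j : Fin m) : ∑ k, vv m k j = 1 + m * bb m := by
  unfold vv
  rw [Finset.sum_add_distrib, Finset.sum_ite_eq]
  simp

lemma vv_inner (m : ℕ) (hm : 1 ≤ m) (i j : Fin m) :
    ∑ k, vv m k i * vv m k j = (if i = j then 1 else 0) + 1 / Real.sqrt m := by
  unfold vv
  have e : ∀ k : Fin m, ((if i = k then (1 : ℝ) else 0) + bb m) * ((if j = k then (1 : ℝ) else 0) + bb m)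
      = (if i = k then (if j = k then 1 else 0) else 0) + (if i = k then bb m else 0)
        + (if j = k then bb m else 0) + bb m ^ 2 := by
    intro k
    split_ifs <;> ring
  rw [Finset.sum_congr rfl (fun k _ => e k)]
  simp only [Finset.sum_add_distrib, Finset.sum_ite_eq, Finset.mem_univ, if_true, Finset.sum_const,
    Finset.card_univ, Fintype.card_fin, nsmul_eq_mul]
  rw [← bb_spec m hm]
  have : (if j = i then (1 : ℝ) else 0) = if i = j then 1 else 0 := by
    by_cases h : i = j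
    · rw [if_pos h, if_pos h.symm]
    · rw [if_neg h, if_neg (Ne.symm h)]
  rw [this]
  ring

lemma vv_norm (m : ℕ) (hm : 1 ≤ m) (k : Fin m) :
    ∑ j, vv m k j * vv m k j = 1 + 1 / Real.sqrt m := by
  have h := vv_inner m hm k k
  rw [if_pos rfl] at h
  rw [← h]
  refine Finset.sum_congr rfl fun j _ => ?_
  unfold vv
  by_cases hjk : j = k
  · subst hjk; rfl
  · rw [if_neg hjk, if_neg (Ne.symm hjk)]

/-- the rank one matrices -/
noncomputable def AA (m : ℕ) (hm : 1 ≤ m) (k : Fin m) : Matrix (Fin m) (Fin m) ℂ :=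
  Matrix.of fun i j => if i = ⟨0, hm⟩ then ((vv m k j : ℝ) : ℂ) else 0

/-- their absolute values -/
noncomputable def PP (m : ℕ) (k : Fin m) : Matrix (Fin m) (Fin m) ℂ :=
  Matrix.of fun i j => ((vv m k i * vv m k j / Real.sqrt (1 + 1 / Real.sqrt m) : ℝ) : ℂ)

lemma AA_mul (m : ℕ) (hm : 1 ≤ m) (k i j : Fin m) :
    ((AA m hm k)ᴴ * AA m hm k) i j = ((vv m k i * vv m k j : ℝ) : ℂ) := by
  rw [Matrix.mul_apply]
  simp only [AA, conjTranspose_apply, Matrix.of_apply]
  rw [Finset.sum_eq_single (⟨0, hm⟩ : Fin m)]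
  · simp
  · intro x _ hx
    simp [hx]
  · intro h; exact absurd (Finset.mem_univ _) h

lemma NN_pos (m : ℕ) : 0 < 1 + 1 / Real.sqrt m := by positivity

lemma PP_mul (m : ℕ) (hm : 1 ≤ m) (k : Fin m) : PP m k * PP m k = (AA m hm k)ᴴ * AA m hm k := by
  have hN := NN_pos m
  ext i j
  rw [AA_mul, Matrix.mul_apply]
  simp only [PP, Matrix.of_apply]
  have h : ∑ x, (vv m k i * vv m k x / Real.sqrt (1 + 1 / Real.sqrt m))
      * (vv m k x * vv m k j / Real.sqrt (1 + 1 / Real.sqrt m)) = vv m k i * vv m k j := by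
    have e : ∀ x, (vv m k i * vv m k x / Real.sqrt (1 + 1 / Real.sqrt m))
      * (vv m k x * vv m k j / Real.sqrt (1 + 1 / Real.sqrt m))
      = vv m k i * vv m k j * (vv m k x * vv m k x) / (1 + 1 / Real.sqrt m) := by
      intro x
      rw [div_mul_div_comm, Real.mul_self_sqrt hN.le]
      ring
    rw [Finset.sum_congr rfl (fun x _ => e x), ← Finset.sum_div, ← Finset.mul_sum, vv_norm m hm,
      mul_div_cancel_right₀ _ hN.ne']
  rw [← h]
  push_cast
  rfl

open scoped ComplexOrder in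
lemma PP_pos (m : ℕ) (hm : 1 ≤ m) (k : Fin m) : (PP m k).PosSemidef := by
  have e : PP m k = (((Real.sqrt (1 + 1 / Real.sqrt m))⁻¹ : ℝ) : ℂ) • ((AA m hm k)ᴴ * AA m hm k) := by
    ext i j
    rw [Matrix.smul_apply, AA_mul, smul_eq_mul, ← Complex.ofReal_mul]
    simp only [PP, Matrix.of_apply]
    congr 1
    rw [div_eq_mul_inv, mul_comm]
  rw [e]
  refine (posSemidef_conjTranspose_mul_self _).smul ?_
  have : (0 : ℝ) ≤ (Real.sqrt (1 + 1 / Real.sqrt m))⁻¹ := by positivity
  exact_mod_cast this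

lemma hs_AA (m : ℕ) (hm : 1 ≤ m) : hs (∑ k, AA m hm k) = m * (1 + Real.sqrt m) := by
  have h1 : ∀ i j, (∑ k, AA m hm k) i j = if i = ⟨0, hm⟩ then ((1 + m * bb m : ℝ) : ℂ) else 0 := by
    intro i j
    rw [Matrix.sum_apply]
    simp only [AA, Matrix.of_apply]
    split_ifs with h
    · rw [← vv_sum m j]; push_cast; rfl
    · simp
  unfold hs
  simp only [h1]
  rw [Finset.sum_eq_single (⟨0, hm⟩ : Fin m)]
  · simp only [if_true, Complex.norm_real, Real.norm_eq_abs, sq_abs, Finset.sum_const,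
      Finset.card_univ, Fintype.card_fin, nsmul_eq_mul]
    congr 1
    have hm0 : (0 : ℝ) < m := by exact_mod_cast hm
    have hb := bb_spec m hm
    have h3 : m * (1 / Real.sqrt m) = Real.sqrt m := by
      rw [mul_one_div, div_eq_iff (Real.sqrt_pos.mpr hm0).ne', Real.mul_self_sqrt hm0.le]
    calc (1 + m * bb m) ^ 2 = 1 + m * (m * bb m ^ 2 + 2 * bb m) := by ring
      _ = _ := by rw [hb, h3]
  · intro i _ hi
    simp [hi]
  · intro h; exact absurd (Finset.mem_univ _) h

lemma hs_PP (m : ℕ) (hm : 1 ≤ m) : hs (∑ k, PP m k) = 2 * m := by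
  have hm0 : (0 : ℝ) < m := by exact_mod_cast hm
  have hq : 0 < Real.sqrt m := Real.sqrt_pos.mpr hm0
  have hqq : Real.sqrt m * Real.sqrt m = m := Real.mul_self_sqrt hm0.le
  have hN := NN_pos m
  have h1 : ∀ i j, (∑ k, PP m k) i j = ((((if i = j then 1 else 0) + 1 / Real.sqrt m) /
      Real.sqrt (1 + 1 / Real.sqrt m) : ℝ) : ℂ) := by
    intro i j
    rw [Matrix.sum_apply, ← vv_inner m hm i j, Finset.sum_div]
    simp only [PP, Matrix.of_apply]
    push_cast
    rfl
  unfold hs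
  simp only [h1, Complex.norm_real, Real.norm_eq_abs, sq_abs, div_pow, Real.sq_sqrt hN.le]
  have e : ∀ i j : Fin m, ((if i = j then (1 : ℝ) else 0) + 1 / Real.sqrt m) ^ 2
      = (if i = j then 1 + 2 * (1 / Real.sqrt m) else 0) + (1 / Real.sqrt m) ^ 2 := by
    intro i j
    split_ifs <;> ring
  simp only [← Finset.sum_div, e, Finset.sum_add_distrib, Finset.sum_ite_eq, Finset.mem_univ,
    if_true, Finset.sum_const, Finset.card_univ, Fintype.card_fin, nsmul_eq_mul]
  rw [div_eq_iff hN.ne']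
  set q := Real.sqrt m with hqdef
  rw [← hqq]
  field_simp
  ring

open scoped ComplexOrder in
/-- The constant is attained. -/
theorem sharp (m : ℕ) (hm : 1 ≤ m) : ∃ A : Fin m → Matrix (Fin m) (Fin m) ℂ,
    0 < frob (∑ k, A k) ∧
    frob (∑ k, A k) = Real.sqrt ((1 + Real.sqrt m) / 2) * frob (∑ k, absM (A k)) := by
  have hfr : ∀ X : Matrix (Fin m) (Fin m) ℂ, frob X = Real.sqrt (hs X) := by
    intro X
    unfold frob
    rw [hs_trace, Complex.ofReal_re]
  have hm0 : (0 : ℝ) < m := by exact_mod_cast hm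
  refine ⟨AA m hm, ?_, ?_⟩
  · rw [hfr, hs_AA]
    exact Real.sqrt_pos.mpr (by positivity)
  · have habs : ∀ k, absM (AA m hm k) = PP m k := fun k =>
      absM_eq _ _ (PP_pos m hm k) (PP_mul m hm k)
    simp only [habs]
    rw [hfr, hfr, hs_AA, hs_PP m hm, ← Real.sqrt_mul (by positivity)]
    congr 1
    ring

end Pool.Agent.Y860.LC
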