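import Pool.Agent.Y860.LC.Proj

set_option autoImplicit false
set_option linter.unusedSectionVars false
set_option linter.unusedVariables false
open Matrix

namespace Pool.Agent.Y860.LC
open Pool.Agent.Results.MP_46ffdd_an.LeeConcaveFrobenius

section
variable {ι : Type*} [Fintype ι] [DecidableEq ι] {κ : Type*} [Fintype κ] [DecidableEq κ]

/-- The constant `(1 + √m) / 2`. -/
noncomputable def cm (m : ℕ) : ℝ := (1 + Real.sqrt m) / 2

lemma cm_mul (m : ℕ) : 4 * cm m * (cm m - 1) = (m : ℝ) - 1 := by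
  unfold cm
  have h := Real.mul_self_sqrt (show (0 : ℝ) ≤ m from Nat.cast_nonneg m)
  nlinarith

lemma cm_ge (m : ℕ) (hm : 1 ≤ m) : 1 ≤ cm m := by
  unfold cm
  have h : (1 : ℝ) ≤ Real.sqrt m := by
    rw [Real.one_le_sqrt]
    exact_mod_cast hm
  linarith

lemma num (c K y p q cr : ℝ) (hc : 0 < c) (hK : 0 ≤ K) (hy : 0 ≤ y) (hp : 0 ≤ p) (hq : 0 ≤ q)
    (hKK : K ^ 2 ≤ p * q) (hcr : cr ^ 2 ≤ K * y) : cr ≤ (p + q) / (8 * c) + c * y := by
  have hKm : K ≤ (p + q) / 2 := by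
    refine abs_le_of_sq_le_sq' ?_ (by positivity) |>.2
    nlinarith [sq_nonneg (p - q)]
  have hcr : cr ≤ K / (4 * c) + c * y := by
    refine abs_le_of_sq_le_sq' ?_ (by positivity) |>.2
    have e : (K / (4 * c) + c * y) ^ 2 = (K / (4 * c) - c * y) ^ 2 + K * y := by
      have : K / (4 * c) * (c * y) * 4 = K * y := by
        field_simp
      rw [← this]
      ring
    rw [e]
    nlinarith [sq_nonneg (K / (4 * c) - c * y)]
  have h8 : K / (4 * c) ≤ (p + q) / (8 * c) := by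
    rw [div_le_div_iff₀ (by positivity) (by positivity)]
    nlinarith
  linarith

/-- one cross term -/
lemma cross_term (c : ℝ) (hc : 0 < c) (U V A B F : Matrix ι ι ℂ) (hU : Uᴴ * U = 1) (hU' : U * Uᴴ = 1)
    (hV : Vᴴ * V = 1) (hV' : V * Vᴴ = 1)
    (α β : ι → ℝ) (ha : ∀ i, 0 ≤ α i) (hb : ∀ i, 0 ≤ β i)
    (hA : Aᴴ * A = C U (fun i => α i ^ 2)) (hB : Bᴴ * B = C V (fun i => β i ^ 2))
    (hF : Fᴴ = F) (hFF : F * F = F)
    (hEA : C U (fun i => if 1 < α i then (1 : ℝ) else 0) * F = 0)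
    (hEB : C V (fun i => if 1 < β i then (1 : ℝ) else 0) * F = 0) :
    tr ((A * F)ᴴ * (B * F)) ≤
      (hs (C U (fun i => min (α i) 1)) + hs (C V (fun i => min (β i) 1))) / (8 * c)
        + c * tr (C U (fun i => min (α i) 1) * F * C V (fun i => min (β i) 1) * F) := by
  obtain ⟨θ, hθ1, hθ2⟩ := one_side U A F hU hU' α ha hA hEA
  obtain ⟨η, hη1, hη2⟩ := one_side V B F hV hV' β hb hB hEB
  set P := C U (fun i => min (α i) 1) with hP
  set Q := C V (fun i => min (β i) 1) with hQ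
  have hPH : Pᴴ = P := C_herm _ _
  have hQH : Qᴴ = Q := C_herm _ _
  set ρ := C U (fun i => Real.sqrt (min (α i) 1)) with hρ
  set τ := C V (fun i => Real.sqrt (min (β i) 1)) with hτ
  have hρH : ρᴴ = ρ := C_herm _ _
  have hτH : τᴴ = τ := C_herm _ _
  have hρρ : ρ * ρ = P := C_sqrt U hU _ (fun i => le_min (ha i) zero_le_one)
  have hττ : τ * τ = Q := C_sqrt V hV _ (fun i => le_min (hb i) zero_le_one)
  have st3 : tr ((A * F)ᴴ * (B * F)) ^ 2
      ≤ hs (τ * ηᴴ * θ * ρ) * hs (τ * F * ρ) := by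
    have h := tr_cs (τ * ηᴴ * θ * ρ) (τ * F * ρ)
    have x : tr ((τ * ηᴴ * θ * ρ)ᴴ * (τ * F * ρ)) = tr ((A * F)ᴴ * (B * F)) := by
      rw [hθ1, hη1]
      simp only [conjTranspose_mul, conjTranspose_conjTranspose, hρH, hτH, hF, hPH]
      calc tr (ρ * (θᴴ * (η * τ)) * (τ * F * ρ)) = tr (ρ * (θᴴ * η * (τ * τ) * F * ρ)) := by
            simp only [Matrix.mul_assoc]
        _ = tr ((θᴴ * η * (τ * τ) * F * ρ) * ρ) := tr_comm _ _
        _ = tr (θᴴ * η * (τ * τ) * (F * F) * (ρ * ρ)) := by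
            rw [hFF]; simp only [Matrix.mul_assoc]
        _ = tr ((θᴴ * η * Q * F) * (F * P)) := by
            rw [hρρ, hττ]; simp only [Matrix.mul_assoc]
        _ = tr ((F * P) * (θᴴ * η * Q * F)) := tr_comm _ _
        _ = _ := by simp only [Matrix.mul_assoc]
    rw [x] at h
    exact h
  have st4 : hs (τ * F * ρ) = tr (P * F * Q * F) := by
    rw [← hs_tr]
    simp only [conjTranspose_mul, hρH, hτH, hF]
    calc tr (ρ * (F * τ) * (τ * F * ρ)) = tr (ρ * (F * (τ * τ) * F * ρ)) := by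
          simp only [Matrix.mul_assoc]
      _ = tr ((F * (τ * τ) * F * ρ) * ρ) := tr_comm _ _
      _ = tr ((F * Q * F) * P) := by
          rw [← hρρ, ← hττ]; simp only [Matrix.mul_assoc]
      _ = tr (P * (F * Q * F)) := tr_comm _ _
      _ = _ := by simp only [Matrix.mul_assoc]
  have st5 : hs (τ * ηᴴ * θ * ρ) ^ 2 ≤ hs P * hs Q := by
    have h := tr_cs (θ * P * θᴴ) (η * Q * ηᴴ)
    rw [hs_theta θ P hPH hθ2, hs_theta η Q hQH hη2] at h
    have x : tr ((θ * P * θᴴ)ᴴ * (η * Q * ηᴴ)) = hs (τ * ηᴴ * θ * ρ) := by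
      rw [← hs_tr]
      simp only [conjTranspose_mul, conjTranspose_conjTranspose, hρH, hτH, hPH]
      calc tr (θ * (P * θᴴ) * (η * Q * ηᴴ)) = tr ((θ * ρ) * (ρ * θᴴ * η * Q * ηᴴ)) := by
            rw [← hρρ]; simp only [Matrix.mul_assoc]
        _ = tr ((ρ * θᴴ * η * Q * ηᴴ) * (θ * ρ)) := tr_comm _ _
        _ = _ := by rw [← hττ]; simp only [Matrix.mul_assoc]
    rw [x] at h
    exact h
  rw [← st4]
  exact num c _ _ _ _ _ hc (hs_nonneg _) (hs_nonneg _) (hs_nonneg _) (hs_nonneg _) st5 st3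

/-- The inequality for `f(x) = min(x, 1)`, for finitely many matrices. -/
lemma key' (U : κ → Matrix ι ι ℂ) (W : Matrix ι ι ℂ) (A : κ → Matrix ι ι ℂ)
    (hκ : 1 ≤ Fintype.card κ)
    (hU : ∀ k, (U k)ᴴ * U k = 1) (hU' : ∀ k, U k * (U k)ᴴ = 1)
    (hW : Wᴴ * W = 1) (hW' : W * Wᴴ = 1)
    (α : κ → ι → ℝ) (s : ι → ℝ) (ha : ∀ k i, 0 ≤ α k i) (hs0 : ∀ i, 0 ≤ s i)
    (hA : ∀ k, (A k)ᴴ * A k = C (U k) (fun i => α k i ^ 2))
    (hS : (∑ k, A k)ᴴ * (∑ k, A k) = C W (fun i => s i ^ 2)) :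
    ∑ i, min (s i) 1 ^ 2 ≤ cm (Fintype.card κ) *
      ∑ k, ∑ l, tr (C (U k) (fun i => min (α k i) 1) * C (U l) (fun i => min (α l i) 1)) := by
  obtain ⟨F, hF, hFF, hEA, hd⟩ := exists_F' U hU (fun k i => 1 < α k i)
  have hc1 := cm_ge _ hκ
  set c := cm (Fintype.card κ) with hc
  have hc0 : 0 < c := by linarith
  have hmain := main_ineq c hc1 U F hU (fun k i => min (α k i) 1) (fun k i => 1 < α k i)
    (fun k i => le_min (ha k i) zero_le_one) (fun k i => min_le_right _ _)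
    (fun k i h => min_eq_right h.le) hF hFF hEA hd
  set P : κ → Matrix ι ι ℂ := fun k => C (U k) (fun i => min (α k i) 1) with hP
  have hPH : ∀ k, (P k)ᴴ = P k := fun k => C_herm _ _
  set E := 1 - F with hE
  have hEH : Eᴴ = E := by rw [hE, conjTranspose_sub, conjTranspose_one, hF]
  have hEE : E * E = E := by
    rw [hE, Matrix.mul_sub, Matrix.sub_mul, Matrix.sub_mul, hFF]; simp
  have st1 : ∑ i, min (s i) 1 ^ 2 ≤ tr E + hs ((∑ k, A k) * F) := by
    have e1 : hs ((∑ k, A k) * F) = tr (C W (fun i => s i ^ 2) * F) := by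
      rw [← hs_tr, conjTranspose_mul, hF]
      calc tr (F * (∑ k, A k)ᴴ * ((∑ k, A k) * F)) = tr (F * ((∑ k, A k)ᴴ * (∑ k, A k) * F)) := by
            simp only [Matrix.mul_assoc]
        _ = tr (((∑ k, A k)ᴴ * (∑ k, A k) * F) * F) := tr_comm _ _
        _ = _ := by rw [Matrix.mul_assoc _ F F, hFF, hS]
    have e2 : tr (C W (fun i => min (s i) 1 ^ 2) * F) ≤ tr (C W (fun i => s i ^ 2) * F) := by
      have h := tr_nonneg1 W F hW (fun i => s i ^ 2 - min (s i) 1 ^ 2)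
        (fun i => by
          have h1 : min (s i) 1 ≤ s i := min_le_left _ _
          have h2 : 0 ≤ min (s i) 1 := le_min (hs0 i) zero_le_one
          nlinarith) hF hFF
      rw [← C_sub, Matrix.sub_mul, tr_sub] at h
      linarith
    have e3 : tr (C W (fun i => min (s i) 1 ^ 2) * E) ≤ tr E := by
      have h := tr_nonneg1 W E hW (fun i => 1 - min (s i) 1 ^ 2)
        (fun i => by
          have h1 : min (s i) 1 ≤ 1 := min_le_right _ _
          have h2 : 0 ≤ min (s i) 1 := le_min (hs0 i) zero_le_one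
          nlinarith) hEH hEE
      rw [← C_sub, C_one W hW', Matrix.sub_mul, Matrix.one_mul, tr_sub] at h
      linarith
    have e4 : ∑ i, min (s i) 1 ^ 2 = tr (C W (fun i => min (s i) 1 ^ 2) * F)
        + tr (C W (fun i => min (s i) 1 ^ 2) * E) := by
      rw [← tr_add, ← Matrix.mul_add, hE]
      have : F + (1 - F) = 1 := by abel
      rw [this, Matrix.mul_one]
      unfold tr
      rw [C_trace W hW, Complex.ofReal_re]
    rw [e1, e4]
    linarith
  -- expansion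
  have st2 : hs ((∑ k, A k) * F) = ∑ k, ∑ l, tr ((A k * F)ᴴ * (A l * F)) := by
    rw [← hs_tr, Matrix.sum_mul, conjTranspose_sum, Matrix.sum_mul, tr_sum]
    refine Finset.sum_congr rfl fun k _ => ?_
    rw [Matrix.mul_sum, tr_sum]
  -- diagonal terms
  have hdiag : ∀ k, tr ((A k * F)ᴴ * (A k * F)) = hs (P k * F) := by
    intro k
    obtain ⟨θ, hθ1, hθ2⟩ := one_side (U k) (A k) F (hU k) (hU' k) (α k) (ha k) (hA k) (hEA k)
    rw [hs_tr, hθ1, ← hs_tr, ← hs_tr]
    simp only [conjTranspose_mul, hF, hPH]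
    congr 1
    have hPk : (C (U k) fun i => min (α k i) 1) = P k := rfl
    rw [hPk] at hθ2 ⊢
    rw [hPH k]
    calc F * (P k * θᴴ) * (θ * P k * F) = F * P k * (θᴴ * θ * P k) * F := by
          simp only [Matrix.mul_assoc]
      _ = _ := by rw [hθ2]; simp only [Matrix.mul_assoc]
  have hoff : ∀ k l, tr ((A k * F)ᴴ * (A l * F)) ≤ (if k = l then
      hs (P k * F) - (hs (P k) + hs (P l)) / (8 * c) - c * tr (P k * F * P l * F) else 0)
      + ((hs (P k) + hs (P l)) / (8 * c) + c * tr (P k * F * P l * F)) := by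
    intro k l
    split_ifs with h
    · subst h
      rw [hdiag]
      linarith
    · rw [zero_add]
      exact cross_term c hc0 (U k) (U l) (A k) (A l) F (hU k) (hU' k) (hU l) (hU' l) (α k) (α l)
        (ha k) (ha l) (hA k) (hA l) hF hFF (hEA k) (hEA l)
  have hsum : ∑ k, ∑ l, tr ((A k * F)ᴴ * (A l * F)) ≤
      ∑ k, (hs (P k * F) - (hs (P k) + hs (P k)) / (8 * c) - c * tr (P k * F * P k * F))
      + (∑ k, ∑ l, (hs (P k) + hs (P l)) / (8 * c) + ∑ k, ∑ l, c * tr (P k * F * P l * F)) := by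
    refine le_trans (Finset.sum_le_sum fun k _ => Finset.sum_le_sum fun l _ => hoff k l) ?_
    refine le_of_eq ?_
    simp only [Finset.sum_add_distrib]
    congr 1
    refine Finset.sum_congr rfl fun k _ => ?_
    rw [Finset.sum_ite_eq]
    simp
  have hPP : ∑ k, ∑ l, (hs (P k) + hs (P l)) / (8 * c)
      = 2 * (Fintype.card κ : ℝ) * (∑ k, hs (P k)) / (8 * c) := by
    simp only [← Finset.sum_div]
    congr 1
    simp only [Finset.sum_add_distrib, Finset.sum_const, Finset.card_univ, nsmul_eq_mul]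
    rw [← Finset.mul_sum]
    ring
  have hD : ∑ k, (hs (P k * F) - (hs (P k) + hs (P k)) / (8 * c) - c * tr (P k * F * P k * F))
      = ∑ k, hs (P k * F) - 2 * (∑ k, hs (P k)) / (8 * c) - c * ∑ k, tr (P k * F * P k * F) := by
    rw [Finset.sum_sub_distrib, Finset.sum_sub_distrib, ← Finset.mul_sum, ← Finset.sum_div,
      Finset.sum_add_distrib, two_mul]
  have hY : ∑ k, ∑ l, c * tr (P k * F * P l * F) = c * ∑ k, ∑ l, tr (P k * F * P l * F) := by
    rw [Finset.mul_sum]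
    exact Finset.sum_congr rfl fun k _ => by rw [Finset.mul_sum]
  rw [hPP, hD, hY] at hsum
  have hmul := cm_mul (Fintype.card κ)
  rw [← hc] at hmul
  set sp := ∑ k, hs (P k) with hsp
  have hp0 : 0 ≤ sp := Finset.sum_nonneg fun k _ => hs_nonneg _
  have hcoef : 2 * (Fintype.card κ : ℝ) * sp / (8 * c) - 2 * sp / (8 * c) = (c - 1) * sp := by
    rw [← sub_div, div_eq_iff (by positivity)]
    have : (Fintype.card κ : ℝ) = 4 * c * (c - 1) + 1 := by linarith
    rw [this]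
    ring
  have hm2 : tr E + ∑ k, hs (P k * F)
      + c * (∑ k, ∑ l, tr (P k * F * P l * F) - ∑ k, tr (P k * F * P k * F))
      ≤ sp + c * (∑ k, ∑ l, tr (P k * P l) - sp) := hmain
  show _ ≤ c * ∑ k, ∑ l, tr (P k * P l)
  rw [st2] at st1
  nlinarith

end

end Pool.Agent.Y860.LC
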