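import Pool.Agent.Y860.LC.Key

set_option autoImplicit false
set_option linter.unusedSectionVars false
set_option linter.unusedVariables false
open Matrix

namespace Pool.Agent.Y860.LC
open Pool.Agent.Results.MP_46ffdd_an.LeeConcaveFrobenius

section
variable {ι : Type*} [Fintype ι] [DecidableEq ι] {κ : Type*} [Fintype κ] [DecidableEq κ]

lemma tr_CC (U V : Matrix ι ι ℂ) (φ ψ : ι → ℝ) :
    tr (C U φ * C V ψ) = ∑ i, ∑ j, φ i * ψ j * ‖(Uᴴ * V) i j‖ ^ 2 := by
  unfold tr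
  rw [trace_CC, Complex.ofReal_re]

/-- The inequality for `f(x) = min(x, t)`. -/
lemma key_t' (U : κ → Matrix ι ι ℂ) (W : Matrix ι ι ℂ) (A : κ → Matrix ι ι ℂ)
    (hκ : 1 ≤ Fintype.card κ)
    (hU : ∀ k, (U k)ᴴ * U k = 1) (hU' : ∀ k, U k * (U k)ᴴ = 1)
    (hW : Wᴴ * W = 1) (hW' : W * Wᴴ = 1)
    (α : κ → ι → ℝ) (s : ι → ℝ) (ha : ∀ k i, 0 ≤ α k i) (hs0 : ∀ i, 0 ≤ s i)
    (hA : ∀ k, (A k)ᴴ * A k = C (U k) (fun i => α k i ^ 2))
    (hS : (∑ k, A k)ᴴ * (∑ k, A k) = C W (fun i => s i ^ 2)) (t : ℝ) (ht : 0 < t) :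
    ∑ i, min (s i) t ^ 2 ≤ cm (Fintype.card κ) *
      ∑ k, ∑ l, ∑ i, ∑ j, min (α k i) t * min (α l j) t * ‖((U k)ᴴ * U l) i j‖ ^ 2 := by
  have hsc : ∀ (X Y : Matrix ι ι ℂ) (x : ι → ℝ), Xᴴ * X = C Y (fun i => x i ^ 2) →
      (((t⁻¹ : ℝ) : ℂ) • X)ᴴ * (((t⁻¹ : ℝ) : ℂ) • X) = C Y (fun i => (x i / t) ^ 2) := by
    intro X Y x hX
    rw [conjTranspose_smul, Matrix.smul_mul, Matrix.mul_smul, hX, smul_smul]
    have : star ((t⁻¹ : ℝ) : ℂ) * ((t⁻¹ : ℝ) : ℂ) = (((t⁻¹ * t⁻¹ : ℝ)) : ℂ) := by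
      rw [Complex.star_def, Complex.conj_ofReal]; push_cast; ring
    rw [this, C_smul]
    refine C_congr Y (fun i => ?_)
    rw [div_pow, div_eq_mul_inv, mul_comm, ← inv_pow, sq t⁻¹]
  have hSS : (∑ k, (((t⁻¹ : ℝ) : ℂ) • A k))ᴴ * (∑ k, (((t⁻¹ : ℝ) : ℂ) • A k))
      = C W (fun i => (s i / t) ^ 2) := by
    rw [← Finset.smul_sum]
    exact hsc _ W s hS
  have h := key' U W (fun k => ((t⁻¹ : ℝ) : ℂ) • A k) hκ hU hU' hW hW'
    (fun k i => α k i / t) (fun i => s i / t)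
    (fun k i => div_nonneg (ha k i) ht.le) (fun i => div_nonneg (hs0 i) ht.le)
    (fun k => hsc _ _ _ (hA k)) hSS
  have hmin : ∀ x : ℝ, min (x / t) 1 = min x t / t := by
    intro x
    rw [← min_div_div_right ht.le, div_self ht.ne']
  simp only [hmin, tr_CC] at h
  have e1 : ∑ i, (min (s i) t / t) ^ 2 = (∑ i, min (s i) t ^ 2) / t ^ 2 := by
    rw [Finset.sum_div]
    exact Finset.sum_congr rfl fun i _ => by rw [div_pow]
  have e2 : ∑ k, ∑ l, ∑ i, ∑ j, min (α k i) t / t * (min (α l j) t / t) * ‖((U k)ᴴ * U l) i j‖ ^ 2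
      = (∑ k, ∑ l, ∑ i, ∑ j, min (α k i) t * min (α l j) t * ‖((U k)ᴴ * U l) i j‖ ^ 2) / t ^ 2 := by
    simp only [Finset.sum_div]
    refine Finset.sum_congr rfl fun k _ => Finset.sum_congr rfl fun l _ =>
      Finset.sum_congr rfl fun i _ => Finset.sum_congr rfl fun j _ => ?_
    rw [div_mul_div_comm, ← sq t, div_mul_eq_mul_div]
  rw [e1, e2] at h
  have ht2 : 0 < t ^ 2 := by positivity
  have h2 := mul_le_mul_of_nonneg_right h ht2.le
  rw [div_mul_cancel₀ _ ht2.ne'] at h2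
  refine le_trans h2 (le_of_eq ?_)
  rw [mul_assoc, div_mul_cancel₀ _ ht2.ne']

end

/-- Lee's inequality for finitely many matrices. -/
theorem lee_many (m n : ℕ) (hm : 1 ≤ m) (A : Fin m → Matrix (Fin n) (Fin n) ℂ) (f : ℝ → ℝ)
    (hf0 : ∀ x, 0 ≤ x → 0 ≤ f x) (hf : ConcaveOn ℝ (Set.Ici 0) f) :
    frob (cfc f (absM (∑ k, A k)))
      ≤ Real.sqrt ((1 + Real.sqrt m) / 2) * frob (∑ k, cfc f (absM (A k))) := by
  choose U α hU hU' hα hA hfA using fun k => cfc_abs (A k)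
  obtain ⟨W, s, hW, hW', hs0, hS, hfS⟩ := cfc_abs (∑ k, A k)
  have hcc1 : 1 ≤ cm m := cm_ge m hm
  have hcc0 : 0 ≤ cm m := by linarith
  have hfr : ∀ X : Matrix (Fin n) (Fin n) ℂ, frob X = Real.sqrt (hs X) := by
    intro X
    unfold frob
    rw [hs_trace, Complex.ofReal_re]
  rw [hfr, hfr, hfS, show (1 + Real.sqrt m) / 2 = cm m from rfl, ← Real.sqrt_mul hcc0]
  apply Real.sqrt_le_sqrt
  simp only [hfA]
  -- the weights
  set w : Fin m → Fin m → Fin n → Fin n → ℝ := fun k l i j => ‖((U k)ᴴ * U l) i j‖ ^ 2 with hw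
  have hw0 : ∀ k l i j, 0 ≤ w k l i j := fun k l i j => sq_nonneg _
  have hwd : ∀ k i j, w k k i j = if i = j then 1 else 0 := by
    intro k i j
    simp only [hw]
    rw [hU k, Matrix.one_apply]
    split_ifs <;> simp
  have hRHS : hs (∑ k, C (U k) (fun i => f (α k i)))
      = ∑ k, ∑ l, ∑ i, ∑ j, f (α k i) * f (α l j) * w k l i j := by
    rw [← hs_tr, conjTranspose_sum, Matrix.sum_mul, tr_sum]
    refine Finset.sum_congr rfl fun k _ => ?_
    rw [Matrix.mul_sum, tr_sum]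
    refine Finset.sum_congr rfl fun l _ => ?_
    rw [C_herm, tr_CC]
  rw [hRHS, hs_C W hW]
  -- decomposition of h(y) = f(√y)²
  set h : ℝ → ℝ := fun y => f (Real.sqrt y) ^ 2 with hh
  have hconc := concave_sq f hf0 hf
  have hmono : MonotoneOn h (Set.Ici 0) :=
    concave_mono h (fun x _ => sq_nonneg _) hconc
  set T0 : Finset ℝ := (Finset.univ.image (fun q : Fin m × Fin n => α q.1 q.2 ^ 2)
    ∪ Finset.univ.image (fun i => s i ^ 2)) with hT0
  set T : Finset ℝ := T0.erase 0 with hT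
  have hTpos : ∀ t ∈ T, 0 < t := by
    intro t ht
    rw [hT, Finset.mem_erase] at ht
    obtain ⟨hne, hmem⟩ := ht
    have h0 : 0 ≤ t := by
      rcases Finset.mem_union.mp hmem with h1 | h1
      · obtain ⟨i, _, rfl⟩ := Finset.mem_image.mp h1; positivity
      · obtain ⟨i, _, rfl⟩ := Finset.mem_image.mp h1; positivity
    exact lt_of_le_of_ne h0 (Ne.symm hne)
  obtain ⟨c, hc0, hc1, _⟩ := decomp h hconc hmono T hTpos
  have hval : ∀ x : ℝ, 0 ≤ x → x ^ 2 ∈ insert 0 T →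
      f x ^ 2 = h 0 + ∑ t ∈ T, c t * min x (Real.sqrt t) ^ 2 := by
    intro x hx hmem
    have h1 := hc1 (x ^ 2) hmem
    have h2 : h (x ^ 2) = f x ^ 2 := by
      simp only [hh]
      rw [Real.sqrt_sq hx]
    rw [h2] at h1
    rw [h1]
    congr 1
    refine Finset.sum_congr rfl fun t ht => ?_
    congr 1
    have ht0 := (hTpos t ht).le
    rcases le_total x (Real.sqrt t) with h3 | h3
    · rw [min_eq_left h3, min_eq_left]
      calc x ^ 2 ≤ Real.sqrt t ^ 2 := pow_le_pow_left₀ hx h3 2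
        _ = t := Real.sq_sqrt ht0
    · rw [min_eq_right h3, Real.sq_sqrt ht0, min_eq_right]
      calc t = Real.sqrt t ^ 2 := (Real.sq_sqrt ht0).symm
        _ ≤ x ^ 2 := pow_le_pow_left₀ (Real.sqrt_nonneg _) h3 2
  have mem_of : ∀ y : ℝ, y ∈ T0 → y ∈ insert 0 T := by
    intro y hy
    by_cases h0 : y = 0
    · rw [h0]; exact Finset.mem_insert_self _ _
    · exact Finset.mem_insert_of_mem (Finset.mem_erase.mpr ⟨h0, hy⟩)
  have hvα : ∀ k i, f (α k i) ^ 2 = h 0 + ∑ t ∈ T, c t * min (α k i) (Real.sqrt t) ^ 2 := fun k i =>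
    hval _ (hα k i) (mem_of _ (Finset.mem_union_left _
      (Finset.mem_image.mpr ⟨(k, i), Finset.mem_univ _, rfl⟩)))
  have hvs : ∀ i, f (s i) ^ 2 = h 0 + ∑ t ∈ T, c t * min (s i) (Real.sqrt t) ^ 2 := fun i =>
    hval _ (hs0 i) (mem_of _ (Finset.mem_union_right _
      (Finset.mem_image_of_mem _ (Finset.mem_univ i))))
  have hκ : 0 ≤ h 0 := sq_nonneg _
  -- the cross terms, by Cauchy-Schwarz
  have hcross : ∀ k l i j, ∑ t ∈ T, c t * (min (α k i) (Real.sqrt t) * min (α l j) (Real.sqrt t))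
      ≤ f (α k i) * f (α l j) := by
    intro k l i j
    have h1 := Finset.sum_mul_sq_le_sq_mul_sq T (fun t => Real.sqrt (c t) * min (α k i) (Real.sqrt t))
      (fun t => Real.sqrt (c t) * min (α l j) (Real.sqrt t))
    have e0 : ∑ t ∈ T, Real.sqrt (c t) * min (α k i) (Real.sqrt t) * (Real.sqrt (c t) * min (α l j) (Real.sqrt t))
        = ∑ t ∈ T, c t * (min (α k i) (Real.sqrt t) * min (α l j) (Real.sqrt t)) := by
      refine Finset.sum_congr rfl fun t _ => ?_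
      have := Real.mul_self_sqrt (hc0 t)
      calc _ = (Real.sqrt (c t) * Real.sqrt (c t)) * (min (α k i) (Real.sqrt t) * min (α l j) (Real.sqrt t)) := by
            ring
        _ = _ := by rw [this]
    have e1 : ∀ x : ℝ, ∑ t ∈ T, (Real.sqrt (c t) * min x (Real.sqrt t)) ^ 2
        = ∑ t ∈ T, c t * min x (Real.sqrt t) ^ 2 := by
      intro x
      refine Finset.sum_congr rfl fun t _ => ?_
      rw [mul_pow, Real.sq_sqrt (hc0 t)]
    rw [e0, e1, e1] at h1
    have hfα := hf0 _ (hα k i)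
    have hfβ := hf0 _ (hα l j)
    have b1 : ∑ t ∈ T, c t * min (α k i) (Real.sqrt t) ^ 2 ≤ f (α k i) ^ 2 := by
      rw [hvα k i]; linarith
    have b2 : ∑ t ∈ T, c t * min (α l j) (Real.sqrt t) ^ 2 ≤ f (α l j) ^ 2 := by
      rw [hvα l j]; linarith
    have n2 : 0 ≤ ∑ t ∈ T, c t * min (α l j) (Real.sqrt t) ^ 2 :=
      Finset.sum_nonneg fun t _ => mul_nonneg (hc0 t) (sq_nonneg _)
    have h2 : (∑ t ∈ T, c t * (min (α k i) (Real.sqrt t) * min (α l j) (Real.sqrt t))) ^ 2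
        ≤ (f (α k i) * f (α l j)) ^ 2 := by
      refine le_trans h1 ?_
      rw [mul_pow]
      exact mul_le_mul b1 b2 n2 (sq_nonneg _)
    exact (abs_le_of_sq_le_sq' h2 (mul_nonneg hfα hfβ)).2
  -- sum up
  have hkey : ∀ t ∈ T, ∑ i, min (s i) (Real.sqrt t) ^ 2 ≤ cm m * ∑ k, ∑ l, ∑ i, ∑ j,
      min (α k i) (Real.sqrt t) * min (α l j) (Real.sqrt t) * w k l i j := fun t ht => by
    have := key_t' U W A (by rw [Fintype.card_fin]; exact hm) hU hU' hW hW' α s hα hs0 hA hS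
      (Real.sqrt t) (Real.sqrt_pos.mpr (hTpos t ht))
    rw [Fintype.card_fin] at this
    exact this
  have L : ∑ i, f (s i) ^ 2 = n * h 0 + ∑ t ∈ T, c t * ∑ i, min (s i) (Real.sqrt t) ^ 2 := by
    rw [Finset.sum_congr rfl (fun i _ => hvs i), Finset.sum_add_distrib, Finset.sum_const,
      Finset.card_univ, Fintype.card_fin, nsmul_eq_mul, Finset.sum_comm]
    congr 1
    exact Finset.sum_congr rfl fun t _ => by rw [Finset.mul_sum]
  set G : Fin m → Fin m → Fin n → Fin n → ℝ := fun k l i j =>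
    f (α k i) * f (α l j) - ∑ t ∈ T, c t * (min (α k i) (Real.sqrt t) * min (α l j) (Real.sqrt t)) with hG
  have hG0 : ∀ k l i j, 0 ≤ G k l i j := fun k l i j => sub_nonneg.mpr (hcross k l i j)
  have R3 : (n : ℝ) * h 0 ≤ ∑ k, ∑ l, ∑ i, ∑ j, G k l i j * w k l i j := by
    have k0 : Fin m := ⟨0, hm⟩
    have g1 : ∑ i, ∑ j, G k0 k0 i j * w k0 k0 i j ≤ ∑ k, ∑ l, ∑ i, ∑ j, G k l i j * w k l i j := by
      refine le_trans ?_ (Finset.single_le_sum (f := fun k => ∑ l, ∑ i, ∑ j, G k l i j * w k l i j)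
        (fun k _ => Finset.sum_nonneg fun l _ => Finset.sum_nonneg fun i _ =>
          Finset.sum_nonneg fun j _ => mul_nonneg (hG0 k l i j) (hw0 k l i j)) (Finset.mem_univ k0))
      exact Finset.single_le_sum (f := fun l => ∑ i, ∑ j, G k0 l i j * w k0 l i j)
        (fun l _ => Finset.sum_nonneg fun i _ =>
          Finset.sum_nonneg fun j _ => mul_nonneg (hG0 k0 l i j) (hw0 k0 l i j)) (Finset.mem_univ k0)
    refine le_trans (le_of_eq ?_) g1
    have g2 : ∀ i, ∑ j, G k0 k0 i j * w k0 k0 i j = h 0 := by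
      intro i
      have : ∀ j, G k0 k0 i j * w k0 k0 i j = if i = j then G k0 k0 i j else 0 := by
        intro j
        rw [hwd]
        split_ifs <;> simp
      rw [Finset.sum_congr rfl (fun j _ => this j), Finset.sum_ite_eq]
      simp only [Finset.mem_univ, if_true, hG]
      have h1 := hvα k0 i
      have h2 : ∑ t ∈ T, c t * min (α k0 i) (Real.sqrt t) ^ 2
          = ∑ t ∈ T, c t * (min (α k0 i) (Real.sqrt t) * min (α k0 i) (Real.sqrt t)) :=
        Finset.sum_congr rfl fun t _ => by rw [sq]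
      rw [h2, sq] at h1
      linarith
    rw [Finset.sum_congr rfl (fun i _ => g2 i), Finset.sum_const, Finset.card_univ,
      Fintype.card_fin, nsmul_eq_mul]
  have R4 : ∑ k, ∑ l, ∑ i, ∑ j, f (α k i) * f (α l j) * w k l i j
      = ∑ k, ∑ l, ∑ i, ∑ j, G k l i j * w k l i j
        + ∑ t ∈ T, c t * ∑ k, ∑ l, ∑ i, ∑ j,
          min (α k i) (Real.sqrt t) * min (α l j) (Real.sqrt t) * w k l i j := by
    have e : ∑ t ∈ T, c t * ∑ k, ∑ l, ∑ i, ∑ j,
          min (α k i) (Real.sqrt t) * min (α l j) (Real.sqrt t) * w k l i j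
        = ∑ k, ∑ l, ∑ i, ∑ j, (∑ t ∈ T, c t * (min (α k i) (Real.sqrt t) * min (α l j) (Real.sqrt t)))
            * w k l i j := by
      simp only [Finset.mul_sum, Finset.sum_mul]
      rw [Finset.sum_comm]
      refine Finset.sum_congr rfl fun k _ => ?_
      rw [Finset.sum_comm]
      refine Finset.sum_congr rfl fun l _ => ?_
      rw [Finset.sum_comm]
      refine Finset.sum_congr rfl fun i _ => ?_
      rw [Finset.sum_comm]
      refine Finset.sum_congr rfl fun j _ => Finset.sum_congr rfl fun t _ => ?_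
      ring
    rw [e]
    simp only [← Finset.sum_add_distrib]
    refine Finset.sum_congr rfl fun k _ => Finset.sum_congr rfl fun l _ =>
      Finset.sum_congr rfl fun i _ => Finset.sum_congr rfl fun j _ => ?_
    simp only [hG]
    ring
  have S1 : ∑ t ∈ T, c t * ∑ i, min (s i) (Real.sqrt t) ^ 2
      ≤ cm m * ∑ t ∈ T, c t * ∑ k, ∑ l, ∑ i, ∑ j,
          min (α k i) (Real.sqrt t) * min (α l j) (Real.sqrt t) * w k l i j := by
    rw [Finset.mul_sum]
    refine Finset.sum_le_sum fun t ht => ?_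
    have := mul_le_mul_of_nonneg_left (hkey t ht) (hc0 t)
    refine le_trans this (le_of_eq ?_)
    ring
  have hn : (0 : ℝ) ≤ n * h 0 := by positivity
  rw [L, R4, mul_add]
  have := mul_le_mul_of_nonneg_left R3 hcc0
  nlinarith [mul_nonneg (sub_nonneg.mpr hcc1) hn]

end Pool.Agent.Y860.LC
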