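import Pool.Agent.Results.MP_46ffdd_an.LeeConcaveFrobenius

set_option autoImplicit false
set_option linter.unusedSectionVars false
set_option linter.unusedVariables false
open Matrix

namespace Pool.Agent.Y860.LC
open Pool.Agent.Results.MP_46ffdd_an.LeeConcaveFrobenius

section
variable {ι : Type*} [Fintype ι] [DecidableEq ι] {κ : Type*} [Fintype κ] [DecidableEq κ]

lemma tr_sum (s : Finset κ) (X : κ → Matrix ι ι ℂ) : tr (∑ k ∈ s, X k) = ∑ k ∈ s, tr (X k) := by
  unfold tr
  rw [Matrix.trace_sum, Complex.re_sum]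

lemma rank_sum_le (s : Finset κ) (X : κ → Matrix ι ι ℂ) :
    (∑ k ∈ s, X k).rank ≤ ∑ k ∈ s, (X k).rank := by
  induction s using Finset.induction_on with
  | empty => simp
  | insert a s ha ih =>
    rw [Finset.sum_insert ha, Finset.sum_insert ha]
    exact le_trans (rank_add_le' _ _) (Nat.add_le_add_left ih _)

/-- Projection `F` onto the orthogonal complement of the sum of finitely many ranges. -/
lemma exists_F' (U : κ → Matrix ι ι ℂ) (hU : ∀ k, (U k)ᴴ * U k = 1) (p : κ → ι → Prop)
    [∀ k, DecidablePred (p k)] :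
    ∃ F : Matrix ι ι ℂ, Fᴴ = F ∧ F * F = F ∧
      (∀ k, C (U k) (fun i => if p k i then 1 else 0) * F = 0) ∧
      tr (1 - F) ≤ ∑ k, ∑ i, if p k i then (1 : ℝ) else 0 := by
  set E : κ → Matrix ι ι ℂ := fun k => C (U k) (fun i => if p k i then (1 : ℝ) else 0) with hE
  have hEE : ∀ k, E k * E k = E k := by
    intro k
    rw [hE]
    simp only
    rw [C_mul (U k) (hU k)]
    congr 1
    ext i
    split_ifs <;> simp
  have hEH : ∀ k, (E k)ᴴ = E k := fun k => C_herm _ _
  have hG : (∑ k, E k).IsHermitian := by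
    show (∑ k, E k)ᴴ = ∑ k, E k
    rw [conjTranspose_sum]
    exact Finset.sum_congr rfl fun k _ => hEH k
  set g := hG.eigenvalues with hg
  set W : Matrix ι ι ℂ := (hG.eigenvectorUnitary : Matrix ι ι ℂ) with hW
  have hWW : Wᴴ * W = 1 := Matrix.mem_unitaryGroup_iff'.mp hG.eigenvectorUnitary.2
  have hWW' : W * Wᴴ = 1 := Matrix.mem_unitaryGroup_iff.mp hG.eigenvectorUnitary.2
  have hGC : ∑ k, E k = C W g := by
    have hs := hG.spectral_theorem
    rw [Unitary.conjStarAlgAut_apply] at hs
    exact hs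
  set F := C W (fun i => if g i = 0 then (1 : ℝ) else 0) with hF
  have hFH : Fᴴ = F := C_herm _ _
  have hFF : F * F = F := by
    rw [hF, C_mul W hWW]
    congr 1
    ext i
    split_ifs <;> simp
  have hGF : (∑ k, E k) * F = 0 := by
    rw [hGC, hF, C_mul W hWW]
    rw [← C_zero W]
    congr 1
    ext i
    split_ifs with h
    · simp [h]
    · simp
  have hsum : ∑ k, hs (E k * F) = 0 := by
    have h1 : ∀ k, hs (E k * F) = tr (F * E k * F) := by
      intro k
      rw [← hs_tr, conjTranspose_mul, hFH, hEH]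
      congr 1
      calc F * E k * (E k * F) = F * (E k * E k) * F := by simp only [Matrix.mul_assoc]
        _ = _ := by rw [hEE]
    rw [Finset.sum_congr rfl (fun k _ => h1 k), ← tr_sum, ← Matrix.sum_mul, ← Matrix.mul_sum,
      Matrix.mul_assoc, hGF, Matrix.mul_zero, tr_zero]
  have hz : ∀ k, hs (E k * F) = 0 := by
    intro k
    exact (Finset.sum_eq_zero_iff_of_nonneg (fun k _ => hs_nonneg _)).mp hsum k (Finset.mem_univ k)
  refine ⟨F, hFH, hFF, fun k => hs_eq_zero _ (hz k), ?_⟩
  have ht : tr (1 - F) = ∑ i, (1 - (if g i = 0 then (1 : ℝ) else 0)) := by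
    unfold tr
    rw [← C_one W hWW', hF, C_sub, C_trace W hWW, Complex.ofReal_re]
  rw [ht]
  have hr := rank_sum_le Finset.univ E
  rw [hGC, rank_C W hWW] at hr
  have c1 : ∑ i, (1 - (if g i = 0 then (1 : ℝ) else 0)) = (Fintype.card {i // g i ≠ 0} : ℝ) := by
    rw [Fintype.card_subtype, Finset.card_filter]
    push_cast
    refine Finset.sum_congr rfl fun i _ => ?_
    by_cases h : g i = 0 <;> simp [h]
  have c2 : ∀ k, (∑ i, if p k i then (1 : ℝ) else 0) = ((E k).rank : ℝ) := by
    intro k
    rw [hE]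
    simp only
    rw [rank_C (U k) (hU k), Fintype.card_subtype, Finset.card_filter]
    push_cast
    refine Finset.sum_congr rfl fun i _ => ?_
    by_cases h : p k i <;> simp [h]
  rw [c1, Finset.sum_congr rfl (fun k _ => c2 k)]
  exact_mod_cast hr

/-- bounds for one of the operators -/
lemma half' (U E F : Matrix ι ι ℂ) (hU : Uᴴ * U = 1) (r : ι → ℝ) (p : ι → Prop) [DecidablePred p]
    (h0 : ∀ i, 0 ≤ r i) (h1 : ∀ i, r i ≤ 1) (hp : ∀ i, p i → r i = 1)
    (hE : Eᴴ = E) (hEE : E * E = E) (hF : F = 1 - E)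
    (hA : C U (fun i => if p i then 1 else 0) * F = 0) :
    (∑ i, if p i then (1 : ℝ) else 0) ≤ tr (C U r * E * C U r * E) ∧
    hs (F * C U r * E) + tr (C U r * E * C U r * E) ≤ tr (C U r * E) := by
  have hFH : Fᴴ = F := by rw [hF, conjTranspose_sub, conjTranspose_one, hE]
  have hFF : F * F = F := by
    rw [hF, Matrix.mul_sub, Matrix.sub_mul, Matrix.sub_mul, hEE]; simp
  set R := C U r with hR
  set EA := C U (fun i => if p i then (1 : ℝ) else 0) with hEA
  set R' := C U (fun i => r i - if p i then (1 : ℝ) else 0) with hR'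
  have hEAE : EA * E = EA := by
    have : EA * E = EA - EA * F := by rw [hF, Matrix.mul_sub, Matrix.mul_one]; abel
    rw [this, hA, sub_zero]
  have hEEA : E * EA = EA := by
    have h := congrArg conjTranspose hEAE
    rw [conjTranspose_mul, hE, hEA, C_herm] at h
    exact h
  have hRsplit : R = EA + R' := by
    rw [hR, hEA, hR', C_add]
    congr 1
    ext i
    ring
  have hR'A : EA * R' = 0 := by
    rw [hEA, hR', C_mul U hU, ← C_zero U]
    congr 1
    ext i
    split_ifs with h
    · rw [hp i h]; ring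
    · ring
  have e1 : hs (F * R * E) = tr (R * R * E) - tr (R * E * R * E) := by
    rw [← hs_tr, conjTranspose_mul, conjTranspose_mul, hE, hFH, hR, C_herm, ← hR]
    calc tr (E * (R * F) * (F * R * E)) = tr (E * (R * (F * F) * R * E)) := by
          simp only [Matrix.mul_assoc]
      _ = tr ((R * (F * F) * R * E) * E) := tr_comm _ _
      _ = tr (R * F * R * E) := by rw [hFF, Matrix.mul_assoc (R * F * R) E E, hEE]
      _ = tr (R * R * E - R * E * R * E) := by
          rw [hF, Matrix.mul_sub, Matrix.mul_one, Matrix.sub_mul, Matrix.sub_mul]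
      _ = _ := tr_sub _ _
  have e2 : tr (R * R * E) ≤ tr (R * E) := by
    have h := tr_nonneg1 U E hU (fun i => r i - r i * r i)
      (fun i => by nlinarith [h0 i, h1 i]) hE hEE
    rw [← C_sub, ← C_mul U hU, Matrix.sub_mul, tr_sub] at h
    linarith
  have e3 : (∑ i, if p i then (1 : ℝ) else 0) ≤ tr (R * E * R * E) := by
    have h := tr_nonneg2 U U E hU hU (fun i => r i - if p i then (1 : ℝ) else 0)
      (fun i => r i - if p i then (1 : ℝ) else 0)
      (fun i => by
        split_ifs with h
        · rw [hp i h]; norm_num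
        · simpa using h0 i)
      (fun i => by
        split_ifs with h
        · rw [hp i h]; norm_num
        · simpa using h0 i)
    rw [hE, ← hR'] at h
    have htA : tr EA = ∑ i, if p i then (1 : ℝ) else 0 := by
      unfold tr
      rw [hEA, C_trace U hU, Complex.ofReal_re]
    have hEAA : EA * EA = EA := by
      rw [hEA, C_mul U hU]
      congr 1
      ext i
      split_ifs <;> simp
    have e : tr (R * E * R * E) = tr EA + tr (R' * E * R' * E) := by
      rw [hRsplit]
      have x1 : (EA + R') * E * (EA + R') * E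
          = EA * E * EA * E + EA * E * R' * E + R' * E * EA * E + R' * E * R' * E := by
        simp only [Matrix.add_mul, Matrix.mul_add]; abel
      rw [x1, tr_add, tr_add, tr_add]
      have y1 : EA * E * EA * E = EA := by rw [hEAE, hEAA, hEAE]
      have y2 : tr (EA * E * R' * E) = 0 := by
        rw [hEAE, hR'A, Matrix.zero_mul, tr_zero]
      have y3 : tr (R' * E * EA * E) = 0 := by
        rw [Matrix.mul_assoc R' E EA, hEEA, Matrix.mul_assoc, hEAE, tr_comm, hR'A, tr_zero]
      rw [y1, y2, y3]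
      ring
    rw [e, htA]
    linarith
  exact ⟨e3, by linarith⟩

/-- expansion of the trace of a product of two sums -/
lemma tr_sum_sum (R : κ → Matrix ι ι ℂ) (X Y : Matrix ι ι ℂ) :
    tr ((∑ k, R k) * X * (∑ l, R l) * Y) = ∑ k, ∑ l, tr (R k * X * R l * Y) := by
  rw [Matrix.sum_mul, Matrix.sum_mul, Matrix.sum_mul, tr_sum]
  refine Finset.sum_congr rfl fun k _ => ?_
  rw [Matrix.mul_sum, Matrix.sum_mul, tr_sum]

/-- The main inequality for several operators: compressing to the complement of the eigenspaces. -/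
lemma main_ineq (c : ℝ) (hc : 1 ≤ c) (U : κ → Matrix ι ι ℂ) (F : Matrix ι ι ℂ)
    (hU : ∀ k, (U k)ᴴ * U k = 1) (r : κ → ι → ℝ) (p : κ → ι → Prop) [∀ k, DecidablePred (p k)]
    (r0 : ∀ k i, 0 ≤ r k i) (r1 : ∀ k i, r k i ≤ 1) (rp : ∀ k i, p k i → r k i = 1)
    (hF : Fᴴ = F) (hFF : F * F = F)
    (hA : ∀ k, C (U k) (fun i => if p k i then 1 else 0) * F = 0)
    (hd : tr (1 - F) ≤ ∑ k, ∑ i, if p k i then (1 : ℝ) else 0) :
    tr (1 - F) + ∑ k, hs (C (U k) (r k) * F)
      + c * (∑ k, ∑ l, tr (C (U k) (r k) * F * C (U l) (r l) * F)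
        - ∑ k, tr (C (U k) (r k) * F * C (U k) (r k) * F))
      ≤ ∑ k, hs (C (U k) (r k)) + c * (∑ k, ∑ l, tr (C (U k) (r k) * C (U l) (r l))
        - ∑ k, hs (C (U k) (r k))) := by
  set R : κ → Matrix ι ι ℂ := fun k => C (U k) (r k) with hR
  have hRH : ∀ k, (R k)ᴴ = R k := fun k => C_herm _ _
  set S := ∑ k, R k with hS
  have hSH : Sᴴ = S := by
    rw [hS, conjTranspose_sum]
    exact Finset.sum_congr rfl fun k _ => hRH k
  set E := 1 - F with hE
  have hEF : F = 1 - E := by rw [hE]; abel
  have hEH : Eᴴ = E := by rw [hE, conjTranspose_sub, conjTranspose_one, hF]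
  have hEE : E * E = E := by
    rw [hE, Matrix.mul_sub, Matrix.sub_mul, Matrix.sub_mul, hFF]; simp
  have H := fun k => half' (U k) E F (hU k) (r k) (p k) (r0 k) (r1 k) (rp k) hEH hEE hEF (hA k)
  -- full traces
  have hone : E + F = 1 := by rw [hE]; abel
  have split : ∀ X : Matrix ι ι ℂ, Xᴴ = X → tr (X * X) = tr (X * E * X * E) + 2 * hs (F * X * E)
      + tr (X * F * X * F) := by
    intro X hX
    have e0 : X * X = X * E * X * E + X * E * X * F + X * F * X * E + X * F * X * F := by
      calc X * X = X * (E + F) * X * (E + F) := by rw [hone]; simp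
        _ = _ := by simp only [Matrix.add_mul, Matrix.mul_add]; abel
    have e1 : hs (F * X * E) = tr (X * F * X * E) := by
      rw [← hs_tr, conjTranspose_mul, conjTranspose_mul, hEH, hF, hX]
      calc tr (E * (X * F) * (F * X * E)) = tr (E * (X * (F * F) * X * E)) := by
            simp only [Matrix.mul_assoc]
        _ = tr ((X * (F * F) * X * E) * E) := tr_comm _ _
        _ = tr (X * F * X * E) := by rw [hFF, Matrix.mul_assoc (X * F * X) E E, hEE]
    have e2 : tr (X * E * X * F) = tr (X * F * X * E) := by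
      rw [← tr_conj (X * E * X * F)]
      simp only [conjTranspose_mul, hEH, hF, hX]
      calc tr (F * (X * (E * X))) = tr ((F * X * E) * X) := by simp only [Matrix.mul_assoc]
        _ = tr (X * (F * X * E)) := tr_comm _ _
        _ = _ := by simp only [Matrix.mul_assoc]
    rw [e0, tr_add, tr_add, tr_add, e1, e2]
    ring
  have hsS := split S hSH
  have hsk : ∀ k, hs (R k) = tr (R k * E * R k * E) + 2 * hs (F * R k * E)
      + tr (R k * F * R k * F) := by
    intro k
    rw [← split (R k) (hRH k), ← hs_tr, hRH]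
  -- tr (R k ^ 2 F)
  have hskF : ∀ k, hs (R k * F) = hs (R k) - tr (R k * E * R k * E) - hs (F * R k * E) := by
    intro k
    have a1 : hs (R k * F) = tr (R k * F * R k * F) + hs (F * R k * E) := by
      have b1 : hs (R k * F) = tr (R k * R k * F) := by
        rw [← hs_tr, conjTranspose_mul, hF, hRH]
        calc tr (F * R k * (R k * F)) = tr (F * (R k * R k * F)) := by simp only [Matrix.mul_assoc]
          _ = tr ((R k * R k * F) * F) := tr_comm _ _
          _ = _ := by rw [Matrix.mul_assoc _ F F, hFF]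
      have b2 : R k * R k * F = R k * F * R k * F + R k * E * R k * F := by
        calc R k * R k * F = R k * (E + F) * R k * F := by rw [hone]; simp
          _ = _ := by simp only [Matrix.add_mul, Matrix.mul_add]; abel
      have b3 : hs (F * R k * E) = tr (R k * E * R k * F) := by
        rw [← hs_tr, conjTranspose_mul, conjTranspose_mul, hEH, hF, hRH]
        calc tr (E * (R k * F) * (F * R k * E)) = tr ((E * (R k * (F * F))) * (R k * E)) := by
              simp only [Matrix.mul_assoc]
          _ = tr ((R k * E) * (E * (R k * (F * F)))) := tr_comm _ _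
          _ = tr (R k * (E * E) * R k * (F * F)) := by simp only [Matrix.mul_assoc]
          _ = _ := by rw [hEE, hFF]
      rw [b1, b2, tr_add, b3]
    rw [a1, hsk k]
    ring
  have hSE : 2 * tr (S * E) - tr E ≤ tr (S * E * S * E) := by
    have h := hs_nonneg (E * (S - 1) * E)
    have hS1 : (S - 1)ᴴ = S - 1 := by rw [conjTranspose_sub, conjTranspose_one, hSH]
    rw [← hs_tr] at h
    rw [conjTranspose_mul, conjTranspose_mul, hS1, hEH] at h
    have e : tr (E * ((S - 1) * E) * (E * (S - 1) * E)) = tr (S * E * S * E) - 2 * tr (S * E) + tr E := by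
      have x1 : E * ((S - 1) * E) * (E * (S - 1) * E) = E * ((S - 1) * (E * E) * (S - 1) * E) := by
        simp only [Matrix.mul_assoc]
      rw [x1, hEE, tr_comm]
      have x2 : (S - 1) * E * (S - 1) * E * E = S * E * S * E - S * E - E * S * E + E := by
        rw [Matrix.mul_assoc _ E E, hEE]
        simp only [Matrix.sub_mul, Matrix.mul_sub, Matrix.one_mul, Matrix.mul_one]
        rw [Matrix.mul_assoc S E E, hEE]
        abel
      rw [x2, tr_add, tr_sub, tr_sub]
      have x3 : tr (E * S * E) = tr (S * E) := by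
        rw [Matrix.mul_assoc, tr_comm, Matrix.mul_assoc, hEE]
      rw [x3]
      ring
    rw [e] at h
    linarith
  have hSE2 : tr (S * E) = ∑ k, tr (R k * E) := by
    rw [hS, Matrix.sum_mul, tr_sum]
  have hSS : tr (S * S) = ∑ k, ∑ l, tr (R k * R l) := by
    have := tr_sum_sum R 1 1
    simpa [hS] using this
  have hSF : tr (S * F * S * F) = ∑ k, ∑ l, tr (R k * F * R l * F) := by
    rw [hS, tr_sum_sum]
  have hS3 : 0 ≤ hs (F * S * E) := hs_nonneg _
  -- sums
  set a := ∑ k, tr (R k * E * R k * E) with ha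
  set b := ∑ k, hs (F * R k * E) with hb
  set t := ∑ k, tr (R k * E) with ht
  set y := ∑ k, tr (R k * F * R k * F) with hy
  set P := ∑ k, hs (R k) with hP
  set e := ∑ k, ∑ i, (if p k i then (1 : ℝ) else 0) with he
  have s1 : e ≤ a := Finset.sum_le_sum fun k _ => (H k).1
  have s2 : b + a ≤ t := by
    rw [hb, ha, ht, ← Finset.sum_add_distrib]
    exact Finset.sum_le_sum fun k _ => (H k).2
  have s3 : P = a + 2 * b + y := by
    rw [hP, ha, hb, hy, Finset.mul_sum, ← Finset.sum_add_distrib, ← Finset.sum_add_distrib]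
    exact Finset.sum_congr rfl fun k _ => hsk k
  have s4 : ∑ k, hs (R k * F) = P - a - b := by
    rw [hP, ha, hb, ← Finset.sum_sub_distrib, ← Finset.sum_sub_distrib]
    exact Finset.sum_congr rfl fun k _ => hskF k
  have s5 : 0 ≤ b := Finset.sum_nonneg fun k _ => hs_nonneg _
  show tr E + ∑ k, hs (R k * F) + c * (∑ k, ∑ l, tr (R k * F * R l * F) - y)
    ≤ P + c * (∑ k, ∑ l, tr (R k * R l) - P)
  rw [s4, ← hSF, ← hSS, hsS]
  rw [hSE2] at hSE
  have hd' : tr E ≤ e := hd
  -- c * (trSESE + 2 hs(FSE)) - c (a + 2 b) + a + b - tr E ≥ 0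
  nlinarith [mul_nonneg (sub_nonneg.mpr hc) hS3, mul_le_mul_of_nonneg_left hSE (by linarith : (0:ℝ) ≤ c),
    mul_nonneg (sub_nonneg.mpr hc) (sub_nonneg.mpr s2), mul_nonneg (sub_nonneg.mpr hc) (sub_nonneg.mpr s1),
    mul_nonneg (sub_nonneg.mpr hc) (sub_nonneg.mpr hd')]

end

end Pool.Agent.Y860.LC
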